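import Pool.Agent.Helper67.NO.St4

/-! # Project NO (MP_26be5b_ag), module CRG: semisimple brackets are rigid -/

set_option autoImplicit false

namespace Pool.Agent.Helper68.NO

open Pool.Agent.Helper67.NO
open Matrix Filter
open scoped Matrix.Norms.Frobenius ContDiff Topology

section

variable {n : Type} [Fintype n] [DecidableEq n]

/-- linearised Jacobi operator -/
noncomputable def dJ (μ : n → Matrix n n ℂ) :
    (n → Matrix n n ℂ) →ₗ[ℂ] (n → n → Matrix n n ℂ) where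
  toFun s := fun i j => br (μ i) (s j) + br (s i) (μ j) - ∑ k, (μ i k j • s k + s i k j • μ k)
  map_add' s t := by
    funext i j
    simp only [br, Pi.add_apply, Matrix.add_apply, mul_add, add_mul, smul_add, add_smul,
      Finset.sum_add_distrib]
    abel
  map_smul' c s := by
    funext i j
    simp only [br, Pi.smul_apply, Matrix.smul_apply, RingHom.id_apply, smul_sub, smul_add,
      Finset.smul_sum, mul_smul_comm, smul_mul_assoc, smul_eq_mul, mul_smul]
    congr 2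
    funext k
    rw [smul_comm]

/-- quadratic part of the Jacobi identity -/
noncomputable def qJ (s : n → Matrix n n ℂ) : n → n → Matrix n n ℂ :=
  fun i j => br (s i) (s j) - ∑ k, s i k j • s k

theorem CRG_entry (A : Matrix n n ℂ) (i j : n) : ‖A i j‖ ≤ ‖A‖ := by
  have h : ‖A‖ ^ 2 = ∑ i, ∑ j, ‖A i j‖ ^ 2 := by
    rw [Matrix.frobenius_norm_def, ← Real.rpow_natCast, ← Real.rpow_mul]
    · norm_num
    · exact Finset.sum_nonneg (fun _ _ => Finset.sum_nonneg (fun _ _ => by positivity))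
  have h1 : ‖A i j‖ ^ 2 ≤ ‖A‖ ^ 2 := by
    rw [h]
    calc ‖A i j‖ ^ 2 ≤ ∑ j, ‖A i j‖ ^ 2 :=
          Finset.single_le_sum (f := fun j => ‖A i j‖ ^ 2) (fun _ _ => by positivity)
            (Finset.mem_univ j)
      _ ≤ ∑ i, ∑ j, ‖A i j‖ ^ 2 :=
          Finset.single_le_sum (f := fun i => ∑ j, ‖A i j‖ ^ 2)
            (fun _ _ => Finset.sum_nonneg (fun _ _ => by positivity)) (Finset.mem_univ i)
  exact le_of_sq_le_sq h1 (norm_nonneg _)

theorem CRG_qJ (s : n → Matrix n n ℂ) : ‖qJ s‖ ≤ (2 + Fintype.card n) * ‖s‖ ^ 2 := by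
  have h0 : 0 ≤ (2 + (Fintype.card n : ℝ)) * ‖s‖ ^ 2 := by positivity
  rw [pi_norm_le_iff_of_nonneg h0]
  intro i
  rw [pi_norm_le_iff_of_nonneg h0]
  intro j
  have hi := norm_le_pi_norm s i
  have hj := norm_le_pi_norm s j
  have h1 : ‖s i * s j‖ ≤ ‖s‖ ^ 2 := by
    refine (norm_mul_le _ _).trans ?_
    rw [sq]
    exact mul_le_mul hi hj (norm_nonneg _) (norm_nonneg _)
  have h2 : ‖s j * s i‖ ≤ ‖s‖ ^ 2 := by
    refine (norm_mul_le _ _).trans ?_
    rw [sq]
    exact mul_le_mul hj hi (norm_nonneg _) (norm_nonneg _)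
  have h3 : ‖∑ k, s i k j • s k‖ ≤ Fintype.card n * ‖s‖ ^ 2 := by
    refine (norm_sum_le _ _).trans ?_
    have : ∀ k ∈ (Finset.univ : Finset n), ‖s i k j • s k‖ ≤ ‖s‖ ^ 2 := by
      intro k _
      rw [norm_smul, sq]
      exact mul_le_mul ((CRG_entry _ _ _).trans hi) (norm_le_pi_norm s k) (norm_nonneg _)
        (norm_nonneg _)
    refine (Finset.sum_le_card_nsmul _ _ _ this).trans ?_
    rw [nsmul_eq_mul, Finset.card_univ]
  have h4 : ‖qJ s i j‖ ≤ ‖s i * s j‖ + ‖s j * s i‖ + ‖∑ k, s i k j • s k‖ := by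
    refine (norm_sub_le _ _).trans ?_
    gcongr
    exact norm_sub_le _ _
  linarith [h1, h2, h3, h4, add_mul (2 : ℝ) (Fintype.card n : ℝ) (‖s‖ ^ 2)]

theorem CRG_expand {μ s : n → Matrix n n ℂ} (h : IsLie μ) (h' : IsLie (μ + s)) :
    (∀ i j k, s i k j = - s j k i) ∧ dJ μ s = - qJ s := by
  constructor
  · intro i j k
    have h1 := h.1 i j k
    have h2 := h'.1 i j k
    simp only [Pi.add_apply, Matrix.add_apply] at h2
    linear_combination h2 - h1
  · funext i j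
    have h1 := h.2 i j
    have h2 := h'.2 i j
    simp only [Pi.add_apply, Matrix.add_apply] at h2
    change br (μ i) (s j) + br (s i) (μ j) - ∑ k, (μ i k j • s k + s i k j • μ k)
      = -(br (s i) (s j) - ∑ k, s i k j • s k)
    have h3 : br (μ i + s i) (μ j + s j) = br (μ i) (μ j) + br (μ i) (s j) + br (s i) (μ j)
        + br (s i) (s j) := by
      simp only [br]
      noncomm_ring
    have h4 : ∑ k, (μ i k j + s i k j) • (μ k + s k) = ∑ k, μ i k j • μ k
        + ∑ k, (μ i k j • s k + s i k j • μ k) + ∑ k, s i k j • s k := by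
      simp only [← Finset.sum_add_distrib]
      refine Finset.sum_congr rfl (fun k _ => ?_)
      simp only [add_smul, smul_add]
      abel
    rw [h3, h4, h1] at h2
    have h5 : br (μ i) (s j) + br (s i) (μ j) + br (s i) (s j)
        = ∑ k, (μ i k j • s k + s i k j • μ k) + ∑ k, s i k j • s k := by
      have := congrArg (fun x => x - ∑ k, μ i k j • μ k) h2
      calc _ = ∑ k, μ i k j • μ k + br (μ i) (s j) + br (s i) (μ j)
        + br (s i) (s j) - ∑ k, μ i k j • μ k := by abel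
        _ = _ := by rw [this]; abel
    calc _ = (br (μ i) (s j) + br (s i) (μ j) + br (s i) (s j)) - br (s i) (s j)
        - ∑ k, (μ i k j • s k + s i k j • μ k) := by abel
      _ = _ := by rw [h5]; abel

/-- `X ↦ dact X μ` -/
noncomputable def dactL (h1 : StCAL) (μ : n → Matrix n n ℂ) :
    Matrix n n ℂ →ₗ[ℂ] (n → Matrix n n ℂ) where
  toFun X := dact X μ
  map_add' X Y := (h1 n).2.2.2.2.2.2.1 X Y μ
  map_smul' c X := (h1 n).2.2.2.2.2.2.2.1 c X μ

/-- an entry as a continuous linear map -/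
noncomputable def entryC (i j : n) : Matrix n n ℂ →L[ℂ] ℂ :=
  LinearMap.toContinuousLinearMap (Matrix.entryLinearMap ℂ ℂ i j)

theorem CRG_lin (X : Matrix n n ℂ) : HasDerivAt (fun t : ℂ => (1 + t • X : Matrix n n ℂ)) X 0 := by
  have h := ((hasDerivAt_id (0 : ℂ)).smul_const X).const_add (1 : Matrix n n ℂ)
  exact h.congr_deriv (one_smul _ _)

theorem CRG_inv (X : Matrix n n ℂ) :
    HasDerivAt (fun t : ℂ => (1 + t • X : Matrix n n ℂ)⁻¹) (-X) 0 := by
  have h1 := CRG_lin X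
  have h2 := hasFDerivAt_ringInverse (𝕜 := ℂ) (1 : (Matrix n n ℂ)ˣ)
  have h3 : HasFDerivAt (𝕜 := ℂ) (Ring.inverse : Matrix n n ℂ → Matrix n n ℂ)
      (-ContinuousLinearMap.mulLeftRight ℂ (Matrix n n ℂ) 1 1) (1 + (0 : ℂ) • X) := by
    simpa using h2
  have h4 := h3.comp_hasDerivAt (0 : ℂ) h1
  have h5 : (fun t : ℂ => (1 + t • X : Matrix n n ℂ)⁻¹)
      = (Ring.inverse : Matrix n n ℂ → Matrix n n ℂ) ∘ (fun t : ℂ => (1 + t • X)) := by
    funext t
    exact Matrix.nonsing_inv_eq_ringInverse _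
  rw [h5]
  refine h4.congr_deriv ?_
  simp [ContinuousLinearMap.mulLeftRight_apply]

theorem CRG_line (X : Matrix n n ℂ) (μ s : n → Matrix n n ℂ) :
    HasDerivAt (fun t : ℂ => gact (1 + t • X) (μ + t • s)) (dact X μ + s) 0 := by
  refine hasDerivAt_pi.2 ?_
  intro i
  have h1 := CRG_lin X
  have h2 := CRG_inv X
  have h3 : ∀ j, HasDerivAt (fun t : ℂ => (μ + t • s) j) (s j) 0 := by
    intro j
    have h := ((hasDerivAt_id (0 : ℂ)).smul_const (s j)).const_add (μ j)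
    exact h.congr_deriv (one_smul _ _)
  have h4 : ∀ j, HasDerivAt (fun t : ℂ => (1 + t • X : Matrix n n ℂ)⁻¹ j i) (-X j i) 0 := by
    intro j
    have := (entryC j i).hasFDerivAt.comp_hasDerivAt (0 : ℂ) h2
    exact this.congr_deriv rfl
  have h5 : ∀ j, HasDerivAt (fun t : ℂ => (1 + t • X : Matrix n n ℂ) * (μ + t • s) j
      * (1 + t • X : Matrix n n ℂ)⁻¹) (X * μ j + s j - μ j * X) 0 := by
    intro j
    have := ((h1.mul (h3 j)).mul h2)
    refine this.congr_deriv ?_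
    have e : ((fun t : ℂ => (1 + t • X : Matrix n n ℂ)) * (fun t : ℂ => (μ + t • s) j) :
        ℂ → Matrix n n ℂ) 0 = μ j := by
      simp
    rw [e]
    simp only [zero_smul, add_zero, one_mul, inv_one, mul_one, mul_neg, sub_eq_add_neg]
  have h6 : HasDerivAt (fun t : ℂ => ∑ j, (1 + t • X : Matrix n n ℂ)⁻¹ j i •
      ((1 + t • X : Matrix n n ℂ) * (μ + t • s) j * (1 + t • X : Matrix n n ℂ)⁻¹))
      (∑ j, ((1 : Matrix n n ℂ) j i • (X * μ j + s j - μ j * X) + (-X j i) • μ j)) 0 := by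
    have : ∀ j ∈ (Finset.univ : Finset n), HasDerivAt (fun t : ℂ => (1 + t • X : Matrix n n ℂ)⁻¹ j i •
      ((1 + t • X : Matrix n n ℂ) * (μ + t • s) j * (1 + t • X : Matrix n n ℂ)⁻¹))
      ((1 : Matrix n n ℂ) j i • (X * μ j + s j - μ j * X) + (-X j i) • μ j) 0 := by
      intro j _
      have := (h4 j).smul (h5 j)
      refine this.congr_deriv ?_
      simp only [zero_smul, add_zero, one_mul, inv_one, mul_one]
    exact HasDerivAt.fun_sum this
  refine h6.congr_deriv ?_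
  simp only [Finset.sum_add_distrib, Matrix.one_apply, ite_smul, one_smul, zero_smul, neg_smul,
    Finset.sum_neg_distrib, dact, br, Pi.add_apply]
  simp
  abel

theorem CRG_cd (μ : n → Matrix n n ℂ) (S : Submodule ℂ (n → Matrix n n ℂ)) :
    ContDiffAt ℂ 1 (fun p : Matrix n n ℂ × S => gact (1 + p.1) (μ + (p.2 : n → Matrix n n ℂ))) 0 := by
  refine contDiffAt_pi.2 (fun i => ?_)
  have h1 : ContDiffAt ℂ 1 (fun p : Matrix n n ℂ × S => (1 + p.1 : Matrix n n ℂ)) 0 :=
    contDiffAt_const.add contDiffAt_fst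
  have h2 : ContDiffAt ℂ 1 (fun p : Matrix n n ℂ × S => (1 + p.1 : Matrix n n ℂ)⁻¹) 0 := by
    have h3 : ContDiffAt ℂ 1 (Ring.inverse : Matrix n n ℂ → Matrix n n ℂ)
        (1 + (0 : Matrix n n ℂ × S).1) := by
      have := contDiffAt_ringInverse (n := 1) ℂ (1 : (Matrix n n ℂ)ˣ)
      simpa using this
    have h4 := h3.comp (0 : Matrix n n ℂ × S) h1
    have h5 : (fun p : Matrix n n ℂ × S => (1 + p.1 : Matrix n n ℂ)⁻¹)
        = (Ring.inverse : Matrix n n ℂ → Matrix n n ℂ) ∘ (fun p : Matrix n n ℂ × S => 1 + p.1) := by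
      funext t
      exact Matrix.nonsing_inv_eq_ringInverse _
    rw [h5]
    exact h4
  have h3 : ∀ j, ContDiffAt ℂ 1 (fun p : Matrix n n ℂ × S => (μ + (p.2 : n → Matrix n n ℂ)) j) 0 := by
    intro j
    have hL : ContDiffAt ℂ 1 (fun p : Matrix n n ℂ × S => (p.2 : n → Matrix n n ℂ) j) 0 := by
      have e1 : ContDiff ℂ 1 (fun p : Matrix n n ℂ × S => S.subtypeL p.2) :=
        S.subtypeL.contDiff.comp contDiff_snd
      exact (contDiff_pi.1 e1 j).contDiffAt
    exact contDiffAt_const.add hL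
  have h4 : ∀ j, ContDiffAt ℂ 1 (fun p : Matrix n n ℂ × S => (1 + p.1 : Matrix n n ℂ)⁻¹ j i) 0 := by
    intro j
    exact (entryC j i).contDiff.contDiffAt.comp (0 : Matrix n n ℂ × S) h2
  exact ContDiffAt.sum (fun j _ => (h4 j).smul ((h1.mul (h3 j)).mul h2))

theorem CRG_nhds (h1 : StCAL) (μ : n → Matrix n n ℂ) (S : Submodule ℂ (n → Matrix n n ℂ))
    (hS : IsCompl (LinearMap.range (dactL h1 μ)) S) :
    map (fun p : Matrix n n ℂ × S => gact (1 + p.1) (μ + (p.2 : n → Matrix n n ℂ))) (𝓝 0) = 𝓝 μ := by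
  have hc := CRG_cd μ S
  have hs := hc.hasStrictFDerivAt one_ne_zero
  have hr : (fderiv ℂ (fun p : Matrix n n ℂ × S =>
      gact (1 + p.1) (μ + (p.2 : n → Matrix n n ℂ))) 0).range = ⊤ := by
    rw [eq_top_iff]
    intro ν _
    have hν : ν ∈ LinearMap.range (dactL h1 μ) ⊔ S := by
      rw [hS.sup_eq_top]; trivial
    obtain ⟨y, ⟨X, hX⟩, s, hs', rfl⟩ := Submodule.mem_sup.1 hν
    refine ⟨(X, ⟨s, hs'⟩), ?_⟩
    have d1 : HasDerivAt (fun t : ℂ => t • ((X, ⟨s, hs'⟩) : Matrix n n ℂ × S)) (X, ⟨s, hs'⟩) 0 := by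
      have := (hasDerivAt_id (0 : ℂ)).smul_const ((X, ⟨s, hs'⟩) : Matrix n n ℂ × S)
      exact this.congr_deriv (one_smul _ _)
    have d2 : HasFDerivAt (fun p : Matrix n n ℂ × S =>
      gact (1 + p.1) (μ + (p.2 : n → Matrix n n ℂ))) (fderiv ℂ (fun p : Matrix n n ℂ × S =>
      gact (1 + p.1) (μ + (p.2 : n → Matrix n n ℂ))) 0)
      ((0 : ℂ) • ((X, ⟨s, hs'⟩) : Matrix n n ℂ × S)) := by
      rw [zero_smul]
      exact hs.hasFDerivAt
    have d3 := d2.comp_hasDerivAt (0 : ℂ) d1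
    have d4 := CRG_line X μ s
    have d5 := d3.unique d4
    rw [← hX]
    exact d5
  have hm := hs.map_nhds_eq_of_surj hr
  have e : (fun p : Matrix n n ℂ × S => gact (1 + p.1) (μ + (p.2 : n → Matrix n n ℂ))) 0 = μ := by
    change gact (1 + 0) (μ + ((0 : S) : n → Matrix n n ℂ)) = μ
    rw [add_zero, Submodule.coe_zero, add_zero]
    exact (h1 n).2.1 μ
  exact hm.trans (congrArg 𝓝 e)

/-- **CRG** -/
theorem pCRG (h1 : StCAL) (h2 : StCHH) : StCRG := by
  intro n _ _ μ hμ hK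
  obtain ⟨S, hS⟩ := Submodule.exists_isCompl (LinearMap.range (dactL h1 μ))
  rw [← CRG_nhds h1 μ S hS, eventually_map]
  -- antisymmetric elements of `S`
  let E : Submodule ℂ (n → Matrix n n ℂ) :=
    { carrier := {φ | φ ∈ S ∧ ∀ i j k, φ i k j = - φ j k i}
      add_mem' := by
        rintro a b ⟨ha, ha'⟩ ⟨hb, hb'⟩
        refine ⟨S.add_mem ha hb, fun i j k => ?_⟩
        rw [Pi.add_apply, Pi.add_apply, Matrix.add_apply, Matrix.add_apply, ha' i j k, hb' i j k]
        ring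
      zero_mem' := ⟨S.zero_mem, fun i j k => by simp⟩
      smul_mem' := by
        rintro c a ⟨ha, ha'⟩
        refine ⟨S.smul_mem c ha, fun i j k => ?_⟩
        rw [Pi.smul_apply, Pi.smul_apply, Matrix.smul_apply, Matrix.smul_apply, ha' i j k,
          smul_neg] }
  have hker : LinearMap.ker ((dJ μ).domRestrict E) = ⊥ := by
    rw [eq_bot_iff]
    rintro ⟨s, hs1, hs2⟩ hs
    have hs3 : dJ μ s = 0 := hs
    obtain ⟨X, hX⟩ := h2 n μ s hμ hK hs2 (fun i j => by
      have := congrFun (congrFun hs3 i) j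
      exact sub_eq_zero.1 this)
    have hs4 : s ∈ LinearMap.range (dactL h1 μ) := ⟨X, hX.symm⟩
    have hs5 : s = 0 := by
      have : s ∈ LinearMap.range (dactL h1 μ) ⊓ S := ⟨hs4, hs1⟩
      rw [hS.inf_eq_bot] at this
      exact this
    exact Subtype.ext hs5
  obtain ⟨K, hK0, hKa⟩ := ((dJ μ).domRestrict E).exists_antilipschitzWith hker
  have hKn : ∀ s ∈ E, ‖s‖ ≤ K * ‖dJ μ s‖ := by
    intro s hs
    have := hKa.le_mul_dist ⟨s, hs⟩ 0
    simpa using this
  set C : ℝ := 2 + Fintype.card n with hC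
  have hC0 : 0 < C := by positivity
  have hev1 : ∀ᶠ p : Matrix n n ℂ × S in 𝓝 0, IsUnit (1 + p.1) := by
    have hcont : Continuous (fun p : Matrix n n ℂ × S => (1 + p.1 : Matrix n n ℂ)) :=
      continuous_const.add continuous_fst
    have h0 : {x : Matrix n n ℂ | IsUnit x} ∈ 𝓝 (1 + (0 : Matrix n n ℂ × S).1 : Matrix n n ℂ) :=
      Units.isOpen.mem_nhds (by simp)
    exact hcont.continuousAt h0
  have hev2 : ∀ᶠ p : Matrix n n ℂ × S in 𝓝 0, ‖(p.2 : n → Matrix n n ℂ)‖ < 1 / (K * C) := by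
    have hcont : Continuous (fun p : Matrix n n ℂ × S => ‖(p.2 : n → Matrix n n ℂ)‖) :=
      (continuous_subtype_val.comp continuous_snd).norm
    have h0 : ‖((0 : Matrix n n ℂ × S).2 : n → Matrix n n ℂ)‖ < 1 / (K * C) := by
      simp only [Prod.snd_zero, Submodule.coe_zero, norm_zero]
      have : (0 : ℝ) < K := by exact_mod_cast hK0
      positivity
    exact hcont.continuousAt.eventually_lt continuousAt_const h0
  filter_upwards [hev1, hev2] with p hp1 hp2 hν
  have hdet : IsUnit (1 + p.1 : Matrix n n ℂ).det := (Matrix.isUnit_iff_isUnit_det _).1 hp1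
  have hinv : IsUnit (1 + p.1 : Matrix n n ℂ)⁻¹ := by
    rw [Matrix.isUnit_nonsing_inv_iff]; exact hp1
  have e1 : gact (1 + p.1)⁻¹ (gact (1 + p.1) (μ + (p.2 : n → Matrix n n ℂ)))
      = μ + (p.2 : n → Matrix n n ℂ) := by
    rw [← (h1 n).1 _ _ _ hinv hp1, Matrix.nonsing_inv_mul _ hdet]
    exact (h1 n).2.1 _
  have hL : IsLie (μ + (p.2 : n → Matrix n n ℂ)) := by
    rw [← e1]
    exact (h1 n).2.2.1 _ _ hinv hν
  obtain ⟨ha, hq⟩ := CRG_expand hμ hL
  have hsE : (p.2 : n → Matrix n n ℂ) ∈ E := ⟨p.2.2, ha⟩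
  have hb := hKn _ hsE
  rw [hq, norm_neg] at hb
  have hb2 := CRG_qJ (p.2 : n → Matrix n n ℂ)
  have hs0 : (p.2 : n → Matrix n n ℂ) = 0 := by
    by_contra hne
    have hpos : 0 < ‖(p.2 : n → Matrix n n ℂ)‖ := norm_pos_iff.2 hne
    have hKpos : (0 : ℝ) < K := by exact_mod_cast hK0
    have h3 : ‖(p.2 : n → Matrix n n ℂ)‖ ≤ K * (C * ‖(p.2 : n → Matrix n n ℂ)‖ ^ 2) :=
      hb.trans (mul_le_mul_of_nonneg_left hb2 hKpos.le)
    rw [lt_div_iff₀ (by positivity)] at hp2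
    nlinarith
  refine ⟨1 + p.1, hp1, ?_⟩
  rw [hs0, add_zero]

end

end Pool.Agent.Helper68.NO
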